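import Pool.Agent.helper7.AL.SpecG

set_option autoImplicit false

/-! Row ba:GLC (MP_bf63dc_nt): admissibility of the four clusters. -/

namespace Pool.Agent.AL

open Finset Pool.Agent.helper85.FC Pool.Agent.helper11.MK

theorem GLC (h : LNV_stmt) : GLC_stmt := by
  intro k a b a₀ b₀ X Y g g' hX hY hg p hp
  by_cases hd : p ≤ 4 * k ∨ p ∣ a * b * (a₀ * b₀)
  · obtain ⟨e1, e2⟩ := hg p hp hd
    refine ⟨0, ?_, ?_⟩
    · intro x hx
      simp only [Nat.cast_zero, mul_zero, zero_add]
      exact e1 x hx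
    · intro y hy
      simp only [Nat.cast_zero, mul_zero, zero_add]
      exact e2 y hy
  · have hpk : 4 * k < p := by
      by_contra hcon
      exact hd (Or.inl (by omega))
    have hpd : ¬ p ∣ a * b * (a₀ * b₀) := fun hh => hd (Or.inr hh)
    have hpa : ¬ p ∣ a := fun hh => hpd ((hh.mul_right b).mul_right _)
    have hpb : ¬ p ∣ b := fun hh => hpd ((hh.mul_left a).mul_right _)
    have hpa0 : ¬ p ∣ a₀ := fun hh => hpd ((hh.mul_right b₀).mul_left _)
    have hpb0 : ¬ p ∣ b₀ := fun hh => hpd ((hh.mul_left a₀).mul_left _)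
    have s1 : ¬ p ∣ b * b₀ ^ 2 := fun hh => by
      rcases hp.dvd_mul.1 hh with h1 | h1
      · exact hpb h1
      · exact hpb0 (hp.dvd_of_dvd_pow h1)
    have s2 : ¬ p ∣ a * a₀ * b₀ := fun hh => by
      rcases hp.dvd_mul.1 hh with h1 | h1
      · rcases hp.dvd_mul.1 h1 with h2 | h2
        · exact hpa h2
        · exact hpa0 h2
      · exact hpb0 h1
    have s3 : ¬ p ∣ b * b₀ * a₀ := fun hh => by
      rcases hp.dvd_mul.1 hh with h1 | h1
      · rcases hp.dvd_mul.1 h1 with h2 | h2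
        · exact hpb h2
        · exact hpb0 h2
      · exact hpa0 h1
    have s4 : ¬ p ∣ a * a₀ ^ 2 := fun hh => by
      rcases hp.dvd_mul.1 hh with h1 | h1
      · exact hpa h1
      · exact hpa0 (hp.dvd_of_dvd_pow h1)
    obtain ⟨n, hn⟩ := h p ((X.image (fun x => (b * b₀ ^ 2, (b₀ : ℤ) * g + x)) ∪
        X.image (fun x => (a * a₀ * b₀, (b₀ : ℤ) * g' + x))) ∪
        (Y.image (fun y => (b * b₀ * a₀, (a₀ : ℤ) * g + y)) ∪
        Y.image (fun y => (a * a₀ ^ 2, (a₀ : ℤ) * g' + y)))) hp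
      (by
        have q1 := Finset.card_image_le (s := X) (f := fun x : ℤ => (b * b₀ ^ 2, (b₀ : ℤ) * g + x))
        have q2 := Finset.card_image_le (s := X) (f := fun x : ℤ => (a * a₀ * b₀, (b₀ : ℤ) * g' + x))
        have q3 := Finset.card_image_le (s := Y) (f := fun y : ℤ => (b * b₀ * a₀, (a₀ : ℤ) * g + y))
        have q4 := Finset.card_image_le (s := Y) (f := fun y : ℤ => (a * a₀ ^ 2, (a₀ : ℤ) * g' + y))
        have q5 := Finset.card_union_le (X.image (fun x => (b * b₀ ^ 2, (b₀ : ℤ) * g + x)) ∪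
          X.image (fun x => (a * a₀ * b₀, (b₀ : ℤ) * g' + x)))
          (Y.image (fun y => (b * b₀ * a₀, (a₀ : ℤ) * g + y)) ∪
          Y.image (fun y => (a * a₀ ^ 2, (a₀ : ℤ) * g' + y)))
        have q6 := Finset.card_union_le (X.image (fun x => (b * b₀ ^ 2, (b₀ : ℤ) * g + x)))
          (X.image (fun x => (a * a₀ * b₀, (b₀ : ℤ) * g' + x)))
        have q7 := Finset.card_union_le (Y.image (fun y => (b * b₀ * a₀, (a₀ : ℤ) * g + y)))
          (Y.image (fun y => (a * a₀ ^ 2, (a₀ : ℤ) * g' + y)))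
        omega) (by
        intro v hv hv1
        exfalso
        rcases mem_union.1 hv with hv | hv
        · rcases mem_union.1 hv with hv | hv
          · obtain ⟨z, -, rfl⟩ := mem_image.1 hv
            exact s1 hv1
          · obtain ⟨z, -, rfl⟩ := mem_image.1 hv
            exact s2 hv1
        · rcases mem_union.1 hv with hv | hv
          · obtain ⟨z, -, rfl⟩ := mem_image.1 hv
            exact s3 hv1
          · obtain ⟨z, -, rfl⟩ := mem_image.1 hv
            exact s4 hv1)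
    refine ⟨n, ?_, ?_⟩
    · intro x hx
      exact ⟨hn (b * b₀ ^ 2, (b₀ : ℤ) * g + x) (mem_union_left _ (mem_union_left _ (mem_image_of_mem _ hx))),
        hn (a * a₀ * b₀, (b₀ : ℤ) * g' + x) (mem_union_left _ (mem_union_right _ (mem_image_of_mem _ hx)))⟩
    · intro y hy
      exact ⟨hn (b * b₀ * a₀, (a₀ : ℤ) * g + y) (mem_union_right _ (mem_union_left _ (mem_image_of_mem _ hy))),
        hn (a * a₀ ^ 2, (a₀ : ℤ) * g' + y) (mem_union_right _ (mem_union_right _ (mem_image_of_mem _ hy)))⟩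

end Pool.Agent.AL
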